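import Pool.Agent.Lib_MP_af4de1_fu.Good
import Pool.Agent.Lib_MP_af4de1_fu.SegD
import Pool.Agent.Lib_MP_af4de1_fu.T.Cd0

set_option autoImplicit false

namespace SokalFU

theorem ck1 : blkOK goodK blk5 = true ∧ blkOK goodK blk6 = true ∧ blkOK goodK blk7 = true ∧ blkOK goodK blk8 = true ∧ blkOK goodK blk9 = true := by
  refine ⟨by decide +kernel, ?_⟩
  refine ⟨by decide +kernel, ?_⟩
  refine ⟨by decide +kernel, ?_⟩
  refine ⟨by decide +kernel, ?_⟩
  decide +kernel

theorem blk5_ok : blkOK goodK blk5 = true := ck1.1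

theorem blk6_ok : blkOK goodK blk6 = true := ck1.2.1

theorem blk7_ok : blkOK goodK blk7 = true := ck1.2.2.1

theorem blk8_ok : blkOK goodK blk8 = true := ck1.2.2.2.1

theorem blk9_ok : blkOK goodK blk9 = true := ck1.2.2.2.2

end SokalFU
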