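import Pool.Agent.Lib_MP_af4de1_fu.Good
import Pool.Agent.Lib_MP_af4de1_fu.SegD
import Pool.Agent.Lib_MP_af4de1_fu.T.Cd2

set_option autoImplicit false

namespace SokalFU

theorem ck11 : blkOK goodK blk55 = true ∧ blkOK goodK blk56 = true ∧ blkOK goodK blk57 = true ∧ blkOK goodK blk58 = true ∧ blkOK goodK blk59 = true := by
  refine ⟨by decide +kernel, ?_⟩
  refine ⟨by decide +kernel, ?_⟩
  refine ⟨by decide +kernel, ?_⟩
  refine ⟨by decide +kernel, ?_⟩
  decide +kernel

theorem blk55_ok : blkOK goodK blk55 = true := ck11.1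

theorem blk56_ok : blkOK goodK blk56 = true := ck11.2.1

theorem blk57_ok : blkOK goodK blk57 = true := ck11.2.2.1

theorem blk58_ok : blkOK goodK blk58 = true := ck11.2.2.2.1

theorem blk59_ok : blkOK goodK blk59 = true := ck11.2.2.2.2

end SokalFU
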