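import Pool.Agent.Lib_MP_af4de1_fu.Good
import Pool.Agent.Lib_MP_af4de1_fu.SegD
import Pool.Agent.Lib_MP_af4de1_fu.T.Cd3

set_option autoImplicit false

namespace SokalFU

theorem ck12 : blkOK goodK blk60 = true ∧ blkOK goodK blk61 = true ∧ blkOK goodK blk62 = true ∧ blkOK goodK blk63 = true ∧ blkOK goodK blk64 = true := by
  refine ⟨by decide +kernel, ?_⟩
  refine ⟨by decide +kernel, ?_⟩
  refine ⟨by decide +kernel, ?_⟩
  refine ⟨by decide +kernel, ?_⟩
  decide +kernel

theorem blk60_ok : blkOK goodK blk60 = true := ck12.1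

theorem blk61_ok : blkOK goodK blk61 = true := ck12.2.1

theorem blk62_ok : blkOK goodK blk62 = true := ck12.2.2.1

theorem blk63_ok : blkOK goodK blk63 = true := ck12.2.2.2.1

theorem blk64_ok : blkOK goodK blk64 = true := ck12.2.2.2.2

end SokalFU
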