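import Pool.Agent.Lib_MP_af4de1_fu.Good
import Pool.Agent.Lib_MP_af4de1_fu.SegD
import Pool.Agent.Lib_MP_af4de1_fu.T.Cd3

set_option autoImplicit false

namespace SokalFU

theorem ck13 : blkOK goodK blk65 = true ∧ blkOK goodK blk66 = true ∧ blkOK goodK blk67 = true ∧ blkOK goodK blk68 = true ∧ blkOK goodK blk69 = true := by
  refine ⟨by decide +kernel, ?_⟩
  refine ⟨by decide +kernel, ?_⟩
  refine ⟨by decide +kernel, ?_⟩
  refine ⟨by decide +kernel, ?_⟩
  decide +kernel

theorem blk65_ok : blkOK goodK blk65 = true := ck13.1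

theorem blk66_ok : blkOK goodK blk66 = true := ck13.2.1

theorem blk67_ok : blkOK goodK blk67 = true := ck13.2.2.1

theorem blk68_ok : blkOK goodK blk68 = true := ck13.2.2.2.1

theorem blk69_ok : blkOK goodK blk69 = true := ck13.2.2.2.2

end SokalFU
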