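import Pool.Agent.Lib_MP_af4de1_fu.Good
import Pool.Agent.Lib_MP_af4de1_fu.SegD
import Pool.Agent.Lib_MP_af4de1_fu.T.Cd3

set_option autoImplicit false

namespace SokalFU

theorem ck14 : blkOK goodK blk70 = true ∧ blkOK goodK blk71 = true ∧ blkOK goodK blk72 = true ∧ blkOK goodK blk73 = true ∧ blkOK goodK blk74 = true := by
  refine ⟨by decide +kernel, ?_⟩
  refine ⟨by decide +kernel, ?_⟩
  refine ⟨by decide +kernel, ?_⟩
  refine ⟨by decide +kernel, ?_⟩
  decide +kernel

theorem blk70_ok : blkOK goodK blk70 = true := ck14.1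

theorem blk71_ok : blkOK goodK blk71 = true := ck14.2.1

theorem blk72_ok : blkOK goodK blk72 = true := ck14.2.2.1

theorem blk73_ok : blkOK goodK blk73 = true := ck14.2.2.2.1

theorem blk74_ok : blkOK goodK blk74 = true := ck14.2.2.2.2

end SokalFU
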