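import Pool.Agent.Lib_MP_af4de1_fu.Good
import Pool.Agent.Lib_MP_af4de1_fu.SegD
import Pool.Agent.Lib_MP_af4de1_fu.T.Cd3

set_option autoImplicit false

namespace SokalFU

theorem ck15 : blkOK goodK blk75 = true ∧ blkOK goodK blk76 = true := by
  refine ⟨by decide +kernel, ?_⟩
  decide +kernel

theorem blk75_ok : blkOK goodK blk75 = true := ck15.1

theorem blk76_ok : blkOK goodK blk76 = true := ck15.2

end SokalFU
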