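import Pool.Agent.Lib_MP_af4de1_fu.Good
import Pool.Agent.Lib_MP_af4de1_fu.SegD
import Pool.Agent.Lib_MP_af4de1_fu.T.Cd0

set_option autoImplicit false

namespace SokalFU

theorem ck2 : blkOK goodK blk10 = true ∧ blkOK goodK blk11 = true ∧ blkOK goodK blk12 = true ∧ blkOK goodK blk13 = true ∧ blkOK goodK blk14 = true := by
  refine ⟨by decide +kernel, ?_⟩
  refine ⟨by decide +kernel, ?_⟩
  refine ⟨by decide +kernel, ?_⟩
  refine ⟨by decide +kernel, ?_⟩
  decide +kernel

theorem blk10_ok : blkOK goodK blk10 = true := ck2.1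

theorem blk11_ok : blkOK goodK blk11 = true := ck2.2.1

theorem blk12_ok : blkOK goodK blk12 = true := ck2.2.2.1

theorem blk13_ok : blkOK goodK blk13 = true := ck2.2.2.2.1

theorem blk14_ok : blkOK goodK blk14 = true := ck2.2.2.2.2

end SokalFU
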