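import Pool.Agent.Lib_MP_af4de1_fu.Good
import Pool.Agent.Lib_MP_af4de1_fu.SegD
import Pool.Agent.Lib_MP_af4de1_fu.T.Cd0

set_option autoImplicit false

namespace SokalFU

theorem ck3 : blkOK goodK blk15 = true ∧ blkOK goodK blk16 = true ∧ blkOK goodK blk17 = true ∧ blkOK goodK blk18 = true ∧ blkOK goodK blk19 = true := by
  refine ⟨by decide +kernel, ?_⟩
  refine ⟨by decide +kernel, ?_⟩
  refine ⟨by decide +kernel, ?_⟩
  refine ⟨by decide +kernel, ?_⟩
  decide +kernel

theorem blk15_ok : blkOK goodK blk15 = true := ck3.1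

theorem blk16_ok : blkOK goodK blk16 = true := ck3.2.1

theorem blk17_ok : blkOK goodK blk17 = true := ck3.2.2.1

theorem blk18_ok : blkOK goodK blk18 = true := ck3.2.2.2.1

theorem blk19_ok : blkOK goodK blk19 = true := ck3.2.2.2.2

end SokalFU
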