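import Pool.Agent.Lib_MP_af4de1_fu.Good
import Pool.Agent.Lib_MP_af4de1_fu.SegD
import Pool.Agent.Lib_MP_af4de1_fu.T.Cd1

set_option autoImplicit false

namespace SokalFU

theorem ck4 : blkOK goodK blk20 = true ∧ blkOK goodK blk21 = true ∧ blkOK goodK blk22 = true ∧ blkOK goodK blk23 = true ∧ blkOK goodK blk24 = true := by
  refine ⟨by decide +kernel, ?_⟩
  refine ⟨by decide +kernel, ?_⟩
  refine ⟨by decide +kernel, ?_⟩
  refine ⟨by decide +kernel, ?_⟩
  decide +kernel

theorem blk20_ok : blkOK goodK blk20 = true := ck4.1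

theorem blk21_ok : blkOK goodK blk21 = true := ck4.2.1

theorem blk22_ok : blkOK goodK blk22 = true := ck4.2.2.1

theorem blk23_ok : blkOK goodK blk23 = true := ck4.2.2.2.1

theorem blk24_ok : blkOK goodK blk24 = true := ck4.2.2.2.2

end SokalFU
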