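import Pool.Agent.Lib_MP_af4de1_fu.Good
import Pool.Agent.Lib_MP_af4de1_fu.SegD
import Pool.Agent.Lib_MP_af4de1_fu.T.Cd1

set_option autoImplicit false

namespace SokalFU

theorem ck5 : blkOK goodK blk25 = true ∧ blkOK goodK blk26 = true ∧ blkOK goodK blk27 = true ∧ blkOK goodK blk28 = true ∧ blkOK goodK blk29 = true := by
  refine ⟨by decide +kernel, ?_⟩
  refine ⟨by decide +kernel, ?_⟩
  refine ⟨by decide +kernel, ?_⟩
  refine ⟨by decide +kernel, ?_⟩
  decide +kernel

theorem blk25_ok : blkOK goodK blk25 = true := ck5.1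

theorem blk26_ok : blkOK goodK blk26 = true := ck5.2.1

theorem blk27_ok : blkOK goodK blk27 = true := ck5.2.2.1

theorem blk28_ok : blkOK goodK blk28 = true := ck5.2.2.2.1

theorem blk29_ok : blkOK goodK blk29 = true := ck5.2.2.2.2

end SokalFU
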