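import Pool.Agent.Lib_MP_af4de1_fu.Good
import Pool.Agent.Lib_MP_af4de1_fu.SegD
import Pool.Agent.Lib_MP_af4de1_fu.T.Cd1

set_option autoImplicit false

namespace SokalFU

theorem ck6 : blkOK goodK blk30 = true ∧ blkOK goodK blk31 = true ∧ blkOK goodK blk32 = true ∧ blkOK goodK blk33 = true ∧ blkOK goodK blk34 = true := by
  refine ⟨by decide +kernel, ?_⟩
  refine ⟨by decide +kernel, ?_⟩
  refine ⟨by decide +kernel, ?_⟩
  refine ⟨by decide +kernel, ?_⟩
  decide +kernel

theorem blk30_ok : blkOK goodK blk30 = true := ck6.1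

theorem blk31_ok : blkOK goodK blk31 = true := ck6.2.1

theorem blk32_ok : blkOK goodK blk32 = true := ck6.2.2.1

theorem blk33_ok : blkOK goodK blk33 = true := ck6.2.2.2.1

theorem blk34_ok : blkOK goodK blk34 = true := ck6.2.2.2.2

end SokalFU
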