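import Pool.Agent.Lib_MP_af4de1_fu.Good
import Pool.Agent.Lib_MP_af4de1_fu.SegD
import Pool.Agent.Lib_MP_af4de1_fu.T.Cd1

set_option autoImplicit false

namespace SokalFU

theorem ck7 : blkOK goodK blk35 = true ∧ blkOK goodK blk36 = true ∧ blkOK goodK blk37 = true ∧ blkOK goodK blk38 = true ∧ blkOK goodK blk39 = true := by
  refine ⟨by decide +kernel, ?_⟩
  refine ⟨by decide +kernel, ?_⟩
  refine ⟨by decide +kernel, ?_⟩
  refine ⟨by decide +kernel, ?_⟩
  decide +kernel

theorem blk35_ok : blkOK goodK blk35 = true := ck7.1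

theorem blk36_ok : blkOK goodK blk36 = true := ck7.2.1

theorem blk37_ok : blkOK goodK blk37 = true := ck7.2.2.1

theorem blk38_ok : blkOK goodK blk38 = true := ck7.2.2.2.1

theorem blk39_ok : blkOK goodK blk39 = true := ck7.2.2.2.2

end SokalFU
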