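import Pool.Agent.Lib_MP_af4de1_fu.Good
import Pool.Agent.Lib_MP_af4de1_fu.SegD
import Pool.Agent.Lib_MP_af4de1_fu.T.Cd2

set_option autoImplicit false

namespace SokalFU

theorem ck8 : blkOK goodK blk40 = true ∧ blkOK goodK blk41 = true ∧ blkOK goodK blk42 = true ∧ blkOK goodK blk43 = true ∧ blkOK goodK blk44 = true := by
  refine ⟨by decide +kernel, ?_⟩
  refine ⟨by decide +kernel, ?_⟩
  refine ⟨by decide +kernel, ?_⟩
  refine ⟨by decide +kernel, ?_⟩
  decide +kernel

theorem blk40_ok : blkOK goodK blk40 = true := ck8.1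

theorem blk41_ok : blkOK goodK blk41 = true := ck8.2.1

theorem blk42_ok : blkOK goodK blk42 = true := ck8.2.2.1

theorem blk43_ok : blkOK goodK blk43 = true := ck8.2.2.2.1

theorem blk44_ok : blkOK goodK blk44 = true := ck8.2.2.2.2

end SokalFU
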