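import Pool.Agent.Lib_MP_af4de1_fu.Good
import Pool.Agent.Lib_MP_af4de1_fu.SegD
import Pool.Agent.Lib_MP_af4de1_fu.T.Cd2

set_option autoImplicit false

namespace SokalFU

theorem ck9 : blkOK goodK blk45 = true ∧ blkOK goodK blk46 = true ∧ blkOK goodK blk47 = true ∧ blkOK goodK blk48 = true ∧ blkOK goodK blk49 = true := by
  refine ⟨by decide +kernel, ?_⟩
  refine ⟨by decide +kernel, ?_⟩
  refine ⟨by decide +kernel, ?_⟩
  refine ⟨by decide +kernel, ?_⟩
  decide +kernel

theorem blk45_ok : blkOK goodK blk45 = true := ck9.1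

theorem blk46_ok : blkOK goodK blk46 = true := ck9.2.1

theorem blk47_ok : blkOK goodK blk47 = true := ck9.2.2.1

theorem blk48_ok : blkOK goodK blk48 = true := ck9.2.2.2.1

theorem blk49_ok : blkOK goodK blk49 = true := ck9.2.2.2.2

end SokalFU
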