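import Pool.Agent.Lib_MP_af4de1_fu.T.Cd0
import Pool.Agent.Lib_MP_af4de1_fu.T.Cd1
import Pool.Agent.Lib_MP_af4de1_fu.T.Cd2
import Pool.Agent.Lib_MP_af4de1_fu.T.Cd3

set_option autoImplicit false

namespace SokalFU

/-- all classes -/
def blks : List (List ClsI) := [blk0, blk1, blk2, blk3, blk4, blk5, blk6, blk7, blk8, blk9, blk10, blk11, blk12, blk13, blk14, blk15, blk16, blk17, blk18, blk19, blk20, blk21, blk22, blk23, blk24, blk25, blk26, blk27, blk28, blk29, blk30, blk31, blk32, blk33, blk34, blk35, blk36, blk37, blk38, blk39, blk40, blk41, blk42, blk43, blk44, blk45, blk46, blk47, blk48, blk49, blk50, blk51, blk52, blk53, blk54, blk55, blk56, blk57, blk58, blk59, blk60, blk61, blk62, blk63, blk64, blk65, blk66, blk67, blk68, blk69, blk70, blk71, blk72, blk73, blk74, blk75, blk76]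

end SokalFU
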