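import Pool.Agent.Lib_MP_af4de1_fu.T.Ck0
import Pool.Agent.Lib_MP_af4de1_fu.T.Ck1
import Pool.Agent.Lib_MP_af4de1_fu.T.Ck2
import Pool.Agent.Lib_MP_af4de1_fu.T.Ck3
import Pool.Agent.Lib_MP_af4de1_fu.T.Ck4
import Pool.Agent.Lib_MP_af4de1_fu.T.Ck5
import Pool.Agent.Lib_MP_af4de1_fu.T.Ck6
import Pool.Agent.Lib_MP_af4de1_fu.T.Ck7
import Pool.Agent.Lib_MP_af4de1_fu.T.Ck8
import Pool.Agent.Lib_MP_af4de1_fu.T.Ck9
import Pool.Agent.Lib_MP_af4de1_fu.T.Ck10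
import Pool.Agent.Lib_MP_af4de1_fu.T.Ck11
import Pool.Agent.Lib_MP_af4de1_fu.T.Ck12
import Pool.Agent.Lib_MP_af4de1_fu.T.Ck13
import Pool.Agent.Lib_MP_af4de1_fu.T.Ck14
import Pool.Agent.Lib_MP_af4de1_fu.T.Ck15
import Pool.Agent.Lib_MP_af4de1_fu.T.Cls

set_option autoImplicit false

namespace SokalFU

theorem blks_ok : ∀ b ∈ blks, blkOK goodK b = true := by
  simp only [blks, List.forall_mem_cons, List.not_mem_nil, false_imp_iff, implies_true, and_true]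
  exact ⟨blk0_ok, blk1_ok, blk2_ok, blk3_ok, blk4_ok, blk5_ok, blk6_ok, blk7_ok, blk8_ok, blk9_ok, blk10_ok, blk11_ok, blk12_ok, blk13_ok, blk14_ok, blk15_ok, blk16_ok, blk17_ok, blk18_ok, blk19_ok, blk20_ok, blk21_ok, blk22_ok, blk23_ok, blk24_ok, blk25_ok, blk26_ok, blk27_ok, blk28_ok, blk29_ok, blk30_ok, blk31_ok, blk32_ok, blk33_ok, blk34_ok, blk35_ok, blk36_ok, blk37_ok, blk38_ok, blk39_ok, blk40_ok, blk41_ok, blk42_ok, blk43_ok, blk44_ok, blk45_ok, blk46_ok, blk47_ok, blk48_ok, blk49_ok, blk50_ok, blk51_ok, blk52_ok, blk53_ok, blk54_ok, blk55_ok, blk56_ok, blk57_ok, blk58_ok, blk59_ok, blk60_ok, blk61_ok, blk62_ok, blk63_ok, blk64_ok, blk65_ok, blk66_ok, blk67_ok, blk68_ok, blk69_ok, blk70_ok, blk71_ok, blk72_ok, blk73_ok, blk74_ok, blk75_ok, blk76_ok⟩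

end SokalFU
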