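import Pool.Agent.Lib_MP_af4de1_fu.T.Da19
import Pool.Agent.Lib_MP_af4de1_fu.Tbl

set_option autoImplicit false

namespace SokalFU

/-- the last tube -/
theorem last_ok : lastOK 54975581388800 95805945686261 3454217652357 dat55 = true := by decide +kernel

end SokalFU
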