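import Pool.Agent.Lib_MP_af4de1_fu.T.Da0
import Pool.Agent.Lib_MP_af4de1_fu.OrdN

set_option autoImplicit false

namespace SokalFU

theorem or1 : ordN 4000 dat1 dat2 = true := by decide +kernel

theorem or2 : ordN 4000 dat2 dat3 = true := by decide +kernel

theorem or3 : ordN 4000 dat3 dat4 = true := by decide +kernel

theorem or4 : ordN 4000 dat4 dat5 = true := by decide +kernel

theorem or5 : ordN 4000 dat5 dat6 = true := by decide +kernel

theorem or6 : ordN 4000 dat6 dat7 = true := by decide +kernel

theorem or7 : ordN 4000 dat7 dat8 = true := by decide +kernel

theorem or8 : ordN 4000 dat8 dat9 = true := by decide +kernel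

theorem or9 : ordN 4000 dat9 dat10 = true := by decide +kernel

theorem or10 : ordN 4000 dat10 dat11 = true := by decide +kernel

theorem or11 : ordN 4000 dat11 dat12 = true := by decide +kernel

theorem or12 : ordN 4000 dat12 dat13 = true := by decide +kernel

theorem or13 : ordN 4000 dat13 dat14 = true := by decide +kernel

theorem or14 : ordN 4000 dat14 dat15 = true := by decide +kernel

theorem or15 : ordN 4000 dat15 dat16 = true := by decide +kernel

theorem or16 : ordN 4000 dat16 dat17 = true := by decide +kernel

theorem or17 : ordN 4000 dat17 dat18 = true := by decide +kernel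

theorem or18 : ordN 4000 dat18 dat19 = true := by decide +kernel

theorem or19 : ordN 4000 dat19 dat20 = true := by decide +kernel

theorem or20 : ordN 4000 dat20 dat21 = true := by decide +kernel

theorem or21 : ordN 4000 dat21 dat22 = true := by decide +kernel

end SokalFU
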