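import Pool.Agent.Lib_MP_af4de1_fu.T.Da0
import Pool.Agent.Lib_MP_af4de1_fu.T.Da1
import Pool.Agent.Lib_MP_af4de1_fu.T.Da2
import Pool.Agent.Lib_MP_af4de1_fu.OrdN

set_option autoImplicit false

namespace SokalFU

theorem or22 : ordN 4000 dat22 dat23 = true := by decide +kernel

theorem or23 : ordN 4000 dat23 dat24 = true := by decide +kernel

theorem or24 : ordN 4000 dat24 dat25 = true := by decide +kernel

theorem or25 : ordN 4000 dat25 dat26 = true := by decide +kernel

theorem or26 : ordN 4000 dat26 dat27 = true := by decide +kernel

theorem or27 : ordN 4000 dat27 dat28 = true := by decide +kernel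

theorem or28 : ordN 4000 dat28 dat29 = true := by decide +kernel

theorem or29 : ordN 4000 dat29 dat30 = true := by decide +kernel

theorem or30 : ordN 4000 dat30 dat31 = true := by decide +kernel

end SokalFU
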