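import Pool.Agent.Lib_MP_af4de1_fu.T.Da2
import Pool.Agent.Lib_MP_af4de1_fu.T.Da3
import Pool.Agent.Lib_MP_af4de1_fu.T.Da4
import Pool.Agent.Lib_MP_af4de1_fu.OrdN

set_option autoImplicit false

namespace SokalFU

theorem or31 : ordN 4000 dat31 dat32 = true := by decide +kernel

theorem or32 : ordN 4000 dat32 dat33 = true := by decide +kernel

theorem or33 : ordN 4000 dat33 dat34 = true := by decide +kernel

theorem or34 : ordN 4000 dat34 dat35 = true := by decide +kernel

theorem or35 : ordN 4000 dat35 dat36 = true := by decide +kernel

theorem or36 : ordN 4000 dat36 dat37 = true := by decide +kernel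

end SokalFU
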