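import Pool.Agent.Lib_MP_af4de1_fu.T.Da7
import Pool.Agent.Lib_MP_af4de1_fu.T.Da8
import Pool.Agent.Lib_MP_af4de1_fu.T.Da9
import Pool.Agent.Lib_MP_af4de1_fu.T.Da10
import Pool.Agent.Lib_MP_af4de1_fu.T.Da11
import Pool.Agent.Lib_MP_af4de1_fu.OrdN

set_option autoImplicit false

namespace SokalFU

theorem or42 : ordN 4000 dat42 dat43 = true := by decide +kernel

theorem or43 : ordN 4000 dat43 dat44 = true := by decide +kernel

theorem or44 : ordN 4000 dat44 dat45 = true := by decide +kernel

theorem or45 : ordN 4000 dat45 dat46 = true := by decide +kernel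

theorem or46 : ordN 4000 dat46 dat47 = true := by decide +kernel

end SokalFU
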