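import Pool.Agent.Lib_MP_af4de1_fu.T.Da11
import Pool.Agent.Lib_MP_af4de1_fu.T.Da12
import Pool.Agent.Lib_MP_af4de1_fu.T.Da13
import Pool.Agent.Lib_MP_af4de1_fu.T.Da14
import Pool.Agent.Lib_MP_af4de1_fu.T.Da15
import Pool.Agent.Lib_MP_af4de1_fu.OrdN

set_option autoImplicit false

namespace SokalFU

theorem or47 : ordN 4000 dat47 dat48 = true := by decide +kernel

theorem or48 : ordN 4000 dat48 dat49 = true := by decide +kernel

theorem or49 : ordN 4000 dat49 dat50 = true := by decide +kernel

theorem or50 : ordN 4000 dat50 dat51 = true := by decide +kernel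

end SokalFU
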