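import Pool.Agent.Lib_MP_af4de1_fu.T.Da15
import Pool.Agent.Lib_MP_af4de1_fu.T.Da16
import Pool.Agent.Lib_MP_af4de1_fu.T.Da17
import Pool.Agent.Lib_MP_af4de1_fu.T.Da18
import Pool.Agent.Lib_MP_af4de1_fu.OrdN

set_option autoImplicit false

namespace SokalFU

theorem or51 : ordN 4000 dat51 dat52 = true := by decide +kernel

theorem or52 : ordN 4000 dat52 dat53 = true := by decide +kernel

theorem or53 : ordN 4000 dat53 dat54 = true := by decide +kernel

end SokalFU
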