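import Pool.Agent.Lib_MP_af4de1_fu.T.Da18
import Pool.Agent.Lib_MP_af4de1_fu.T.Da19
import Pool.Agent.Lib_MP_af4de1_fu.OrdN

set_option autoImplicit false

namespace SokalFU

theorem or54 : ordN 4000 dat54 dat55 = true := by decide +kernel

end SokalFU
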