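import Pool.Agent.Lib_MP_af4de1_fu.T.Da1
import Pool.Agent.Lib_MP_af4de1_fu.T.Cls
import Pool.Agent.Lib_MP_af4de1_fu.ChainN

set_option autoImplicit false

namespace SokalFU

theorem tu23 : PartsOK blks sgs23 := by
  refine PartsOK.cons (by decide +kernel) ?_
  refine PartsOK.cons (by decide +kernel) ?_
  refine PartsOK.cons (by decide +kernel) ?_
  refine PartsOK.cons (by decide +kernel) ?_
  refine PartsOK.cons (by decide +kernel) ?_
  refine PartsOK.cons (by decide +kernel) ?_
  refine PartsOK.cons (by decide +kernel) ?_
  refine PartsOK.cons (by decide +kernel) ?_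
  refine PartsOK.cons (by decide +kernel) ?_
  refine PartsOK.cons (by decide +kernel) ?_
  refine PartsOK.cons (by decide +kernel) ?_
  refine PartsOK.cons (by decide +kernel) ?_
  refine PartsOK.cons (by decide +kernel) ?_
  refine PartsOK.cons (by decide +kernel) ?_
  refine PartsOK.cons (by decide +kernel) ?_
  refine PartsOK.cons (by decide +kernel) ?_
  refine PartsOK.cons (by decide +kernel) ?_
  refine PartsOK.cons (by decide +kernel) ?_
  refine PartsOK.cons (by decide +kernel) ?_
  exact PartsOK.nil

theorem ch23 : chainN dat23 = true := by decide +kernel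

theorem en23 : endsOK 87960930000 3454217652358 dat23 = true := by decide +kernel

theorem tu24 : PartsOK blks sgs24 := by
  refine PartsOK.cons (by decide +kernel) ?_
  refine PartsOK.cons (by decide +kernel) ?_
  refine PartsOK.cons (by decide +kernel) ?_
  refine PartsOK.cons (by decide +kernel) ?_
  refine PartsOK.cons (by decide +kernel) ?_
  refine PartsOK.cons (by decide +kernel) ?_
  refine PartsOK.cons (by decide +kernel) ?_
  refine PartsOK.cons (by decide +kernel) ?_
  refine PartsOK.cons (by decide +kernel) ?_
  refine PartsOK.cons (by decide +kernel) ?_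
  refine PartsOK.cons (by decide +kernel) ?_
  refine PartsOK.cons (by decide +kernel) ?_
  refine PartsOK.cons (by decide +kernel) ?_
  refine PartsOK.cons (by decide +kernel) ?_
  refine PartsOK.cons (by decide +kernel) ?_
  refine PartsOK.cons (by decide +kernel) ?_
  refine PartsOK.cons (by decide +kernel) ?_
  refine PartsOK.cons (by decide +kernel) ?_
  refine PartsOK.cons (by decide +kernel) ?_
  refine PartsOK.cons (by decide +kernel) ?_
  exact PartsOK.nil

theorem ch24 : chainN dat24 = true := by decide +kernel

theorem en24 : endsOK 87960930000 3454217652358 dat24 = true := by decide +kernel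

theorem tu25 : PartsOK blks sgs25 := by
  refine PartsOK.cons (by decide +kernel) ?_
  refine PartsOK.cons (by decide +kernel) ?_
  refine PartsOK.cons (by decide +kernel) ?_
  refine PartsOK.cons (by decide +kernel) ?_
  refine PartsOK.cons (by decide +kernel) ?_
  refine PartsOK.cons (by decide +kernel) ?_
  refine PartsOK.cons (by decide +kernel) ?_
  refine PartsOK.cons (by decide +kernel) ?_
  refine PartsOK.cons (by decide +kernel) ?_
  refine PartsOK.cons (by decide +kernel) ?_
  refine PartsOK.cons (by decide +kernel) ?_
  refine PartsOK.cons (by decide +kernel) ?_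
  refine PartsOK.cons (by decide +kernel) ?_
  refine PartsOK.cons (by decide +kernel) ?_
  refine PartsOK.cons (by decide +kernel) ?_
  refine PartsOK.cons (by decide +kernel) ?_
  refine PartsOK.cons (by decide +kernel) ?_
  refine PartsOK.cons (by decide +kernel) ?_
  refine PartsOK.cons (by decide +kernel) ?_
  refine PartsOK.cons (by decide +kernel) ?_
  refine PartsOK.cons (by decide +kernel) ?_
  exact PartsOK.nil

theorem ch25 : chainN dat25 = true := by decide +kernel

theorem en25 : endsOK 87960930000 3454217652358 dat25 = true := by decide +kernel

theorem tu26 : PartsOK blks sgs26 := by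
  refine PartsOK.cons (by decide +kernel) ?_
  refine PartsOK.cons (by decide +kernel) ?_
  refine PartsOK.cons (by decide +kernel) ?_
  refine PartsOK.cons (by decide +kernel) ?_
  refine PartsOK.cons (by decide +kernel) ?_
  refine PartsOK.cons (by decide +kernel) ?_
  refine PartsOK.cons (by decide +kernel) ?_
  refine PartsOK.cons (by decide +kernel) ?_
  refine PartsOK.cons (by decide +kernel) ?_
  refine PartsOK.cons (by decide +kernel) ?_
  refine PartsOK.cons (by decide +kernel) ?_
  refine PartsOK.cons (by decide +kernel) ?_
  refine PartsOK.cons (by decide +kernel) ?_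
  refine PartsOK.cons (by decide +kernel) ?_
  refine PartsOK.cons (by decide +kernel) ?_
  refine PartsOK.cons (by decide +kernel) ?_
  refine PartsOK.cons (by decide +kernel) ?_
  refine PartsOK.cons (by decide +kernel) ?_
  refine PartsOK.cons (by decide +kernel) ?_
  refine PartsOK.cons (by decide +kernel) ?_
  refine PartsOK.cons (by decide +kernel) ?_
  refine PartsOK.cons (by decide +kernel) ?_
  refine PartsOK.cons (by decide +kernel) ?_
  exact PartsOK.nil

theorem ch26 : chainN dat26 = true := by decide +kernel

theorem en26 : endsOK 87960930000 3454217652358 dat26 = true := by decide +kernel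

theorem tu27 : PartsOK blks sgs27 := by
  refine PartsOK.cons (by decide +kernel) ?_
  refine PartsOK.cons (by decide +kernel) ?_
  refine PartsOK.cons (by decide +kernel) ?_
  refine PartsOK.cons (by decide +kernel) ?_
  refine PartsOK.cons (by decide +kernel) ?_
  refine PartsOK.cons (by decide +kernel) ?_
  refine PartsOK.cons (by decide +kernel) ?_
  refine PartsOK.cons (by decide +kernel) ?_
  refine PartsOK.cons (by decide +kernel) ?_
  refine PartsOK.cons (by decide +kernel) ?_
  refine PartsOK.cons (by decide +kernel) ?_
  refine PartsOK.cons (by decide +kernel) ?_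
  refine PartsOK.cons (by decide +kernel) ?_
  refine PartsOK.cons (by decide +kernel) ?_
  refine PartsOK.cons (by decide +kernel) ?_
  refine PartsOK.cons (by decide +kernel) ?_
  refine PartsOK.cons (by decide +kernel) ?_
  refine PartsOK.cons (by decide +kernel) ?_
  refine PartsOK.cons (by decide +kernel) ?_
  refine PartsOK.cons (by decide +kernel) ?_
  refine PartsOK.cons (by decide +kernel) ?_
  refine PartsOK.cons (by decide +kernel) ?_
  refine PartsOK.cons (by decide +kernel) ?_
  refine PartsOK.cons (by decide +kernel) ?_
  refine PartsOK.cons (by decide +kernel) ?_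
  exact PartsOK.nil

theorem ch27 : chainN dat27 = true := by decide +kernel

theorem en27 : endsOK 87960930000 3454217652358 dat27 = true := by decide +kernel

theorem tu28 : PartsOK blks sgs28 := by
  refine PartsOK.cons (by decide +kernel) ?_
  refine PartsOK.cons (by decide +kernel) ?_
  refine PartsOK.cons (by decide +kernel) ?_
  refine PartsOK.cons (by decide +kernel) ?_
  refine PartsOK.cons (by decide +kernel) ?_
  refine PartsOK.cons (by decide +kernel) ?_
  refine PartsOK.cons (by decide +kernel) ?_
  refine PartsOK.cons (by decide +kernel) ?_
  refine PartsOK.cons (by decide +kernel) ?_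
  refine PartsOK.cons (by decide +kernel) ?_
  refine PartsOK.cons (by decide +kernel) ?_
  refine PartsOK.cons (by decide +kernel) ?_
  refine PartsOK.cons (by decide +kernel) ?_
  refine PartsOK.cons (by decide +kernel) ?_
  refine PartsOK.cons (by decide +kernel) ?_
  refine PartsOK.cons (by decide +kernel) ?_
  refine PartsOK.cons (by decide +kernel) ?_
  refine PartsOK.cons (by decide +kernel) ?_
  refine PartsOK.cons (by decide +kernel) ?_
  refine PartsOK.cons (by decide +kernel) ?_
  refine PartsOK.cons (by decide +kernel) ?_
  refine PartsOK.cons (by decide +kernel) ?_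
  refine PartsOK.cons (by decide +kernel) ?_
  refine PartsOK.cons (by decide +kernel) ?_
  refine PartsOK.cons (by decide +kernel) ?_
  refine PartsOK.cons (by decide +kernel) ?_
  exact PartsOK.nil

theorem ch28 : chainN dat28 = true := by decide +kernel

theorem en28 : endsOK 87960930000 3454217652358 dat28 = true := by decide +kernel

end SokalFU
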