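import Pool.Agent.Lib_MP_af4de1_fu.Good
import Pool.Agent.Lib_MP_af4de1_fu.SegD
import Pool.Agent.Lib_MP_af4de1_fu.T.Cd2

set_option autoImplicit false

namespace SokalFU

theorem ck10 : blkOK goodK blk50 = true ∧ blkOK goodK blk51 = true ∧ blkOK goodK blk52 = true ∧ blkOK goodK blk53 = true ∧ blkOK goodK blk54 = true := by
  refine ⟨by decide +kernel, ?_⟩
  refine ⟨by decide +kernel, ?_⟩
  refine ⟨by decide +kernel, ?_⟩
  refine ⟨by decide +kernel, ?_⟩
  decide +kernel

theorem blk50_ok : blkOK goodK blk50 = true := ck10.1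

theorem blk51_ok : blkOK goodK blk51 = true := ck10.2.1

theorem blk52_ok : blkOK goodK blk52 = true := ck10.2.2.1

theorem blk53_ok : blkOK goodK blk53 = true := ck10.2.2.2.1

theorem blk54_ok : blkOK goodK blk54 = true := ck10.2.2.2.2

end SokalFU
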