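import Pool.Agent.Lib_MP_af4de1_fu.T.Da4
import Pool.Agent.Lib_MP_af4de1_fu.T.Da5
import Pool.Agent.Lib_MP_af4de1_fu.T.Da6
import Pool.Agent.Lib_MP_af4de1_fu.T.Da7
import Pool.Agent.Lib_MP_af4de1_fu.OrdN

set_option autoImplicit false

namespace SokalFU

theorem or37 : ordN 4000 dat37 dat38 = true := by decide +kernel

theorem or38 : ordN 4000 dat38 dat39 = true := by decide +kernel

theorem or39 : ordN 4000 dat39 dat40 = true := by decide +kernel

theorem or40 : ordN 4000 dat40 dat41 = true := by decide +kernel

theorem or41 : ordN 4000 dat41 dat42 = true := by decide +kernel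

end SokalFU
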