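import Pool.Agent.Lib_MP_af4de1_fu.T.Da0
import Pool.Agent.Lib_MP_af4de1_fu.T.Cls
import Pool.Agent.Lib_MP_af4de1_fu.ChainN

set_option autoImplicit false

namespace SokalFU

theorem tu1 : PartsOK blks sgs1 := by
  refine PartsOK.cons (by decide +kernel) ?_
  refine PartsOK.cons (by decide +kernel) ?_
  exact PartsOK.nil

theorem ch1 : chainN dat1 = true := by decide +kernel

theorem en1 : endsOK 87960930000 3454217652358 dat1 = true := by decide +kernel

theorem tu2 : PartsOK blks sgs2 := by
  refine PartsOK.cons (by decide +kernel) ?_
  refine PartsOK.cons (by decide +kernel) ?_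
  exact PartsOK.nil

theorem ch2 : chainN dat2 = true := by decide +kernel

theorem en2 : endsOK 87960930000 3454217652358 dat2 = true := by decide +kernel

theorem tu3 : PartsOK blks sgs3 := by
  refine PartsOK.cons (by decide +kernel) ?_
  refine PartsOK.cons (by decide +kernel) ?_
  exact PartsOK.nil

theorem ch3 : chainN dat3 = true := by decide +kernel

theorem en3 : endsOK 87960930000 3454217652358 dat3 = true := by decide +kernel

theorem tu4 : PartsOK blks sgs4 := by
  refine PartsOK.cons (by decide +kernel) ?_
  refine PartsOK.cons (by decide +kernel) ?_
  exact PartsOK.nil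

theorem ch4 : chainN dat4 = true := by decide +kernel

theorem en4 : endsOK 87960930000 3454217652358 dat4 = true := by decide +kernel

theorem tu5 : PartsOK blks sgs5 := by
  refine PartsOK.cons (by decide +kernel) ?_
  refine PartsOK.cons (by decide +kernel) ?_
  refine PartsOK.cons (by decide +kernel) ?_
  exact PartsOK.nil

theorem ch5 : chainN dat5 = true := by decide +kernel

theorem en5 : endsOK 87960930000 3454217652358 dat5 = true := by decide +kernel

theorem tu6 : PartsOK blks sgs6 := by
  refine PartsOK.cons (by decide +kernel) ?_
  refine PartsOK.cons (by decide +kernel) ?_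
  refine PartsOK.cons (by decide +kernel) ?_
  exact PartsOK.nil

theorem ch6 : chainN dat6 = true := by decide +kernel

theorem en6 : endsOK 87960930000 3454217652358 dat6 = true := by decide +kernel

theorem tu7 : PartsOK blks sgs7 := by
  refine PartsOK.cons (by decide +kernel) ?_
  refine PartsOK.cons (by decide +kernel) ?_
  refine PartsOK.cons (by decide +kernel) ?_
  refine PartsOK.cons (by decide +kernel) ?_
  exact PartsOK.nil

theorem ch7 : chainN dat7 = true := by decide +kernel

theorem en7 : endsOK 87960930000 3454217652358 dat7 = true := by decide +kernel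

theorem tu8 : PartsOK blks sgs8 := by
  refine PartsOK.cons (by decide +kernel) ?_
  refine PartsOK.cons (by decide +kernel) ?_
  refine PartsOK.cons (by decide +kernel) ?_
  refine PartsOK.cons (by decide +kernel) ?_
  exact PartsOK.nil

theorem ch8 : chainN dat8 = true := by decide +kernel

theorem en8 : endsOK 87960930000 3454217652358 dat8 = true := by decide +kernel

theorem tu9 : PartsOK blks sgs9 := by
  refine PartsOK.cons (by decide +kernel) ?_
  refine PartsOK.cons (by decide +kernel) ?_
  refine PartsOK.cons (by decide +kernel) ?_
  refine PartsOK.cons (by decide +kernel) ?_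
  exact PartsOK.nil

theorem ch9 : chainN dat9 = true := by decide +kernel

theorem en9 : endsOK 87960930000 3454217652358 dat9 = true := by decide +kernel

theorem tu10 : PartsOK blks sgs10 := by
  refine PartsOK.cons (by decide +kernel) ?_
  refine PartsOK.cons (by decide +kernel) ?_
  refine PartsOK.cons (by decide +kernel) ?_
  refine PartsOK.cons (by decide +kernel) ?_
  refine PartsOK.cons (by decide +kernel) ?_
  exact PartsOK.nil

theorem ch10 : chainN dat10 = true := by decide +kernel

theorem en10 : endsOK 87960930000 3454217652358 dat10 = true := by decide +kernel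

theorem tu11 : PartsOK blks sgs11 := by
  refine PartsOK.cons (by decide +kernel) ?_
  refine PartsOK.cons (by decide +kernel) ?_
  refine PartsOK.cons (by decide +kernel) ?_
  refine PartsOK.cons (by decide +kernel) ?_
  refine PartsOK.cons (by decide +kernel) ?_
  refine PartsOK.cons (by decide +kernel) ?_
  exact PartsOK.nil

theorem ch11 : chainN dat11 = true := by decide +kernel

theorem en11 : endsOK 87960930000 3454217652358 dat11 = true := by decide +kernel

theorem tu12 : PartsOK blks sgs12 := by
  refine PartsOK.cons (by decide +kernel) ?_
  refine PartsOK.cons (by decide +kernel) ?_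
  refine PartsOK.cons (by decide +kernel) ?_
  refine PartsOK.cons (by decide +kernel) ?_
  refine PartsOK.cons (by decide +kernel) ?_
  refine PartsOK.cons (by decide +kernel) ?_
  exact PartsOK.nil

theorem ch12 : chainN dat12 = true := by decide +kernel

theorem en12 : endsOK 87960930000 3454217652358 dat12 = true := by decide +kernel

theorem tu13 : PartsOK blks sgs13 := by
  refine PartsOK.cons (by decide +kernel) ?_
  refine PartsOK.cons (by decide +kernel) ?_
  refine PartsOK.cons (by decide +kernel) ?_
  refine PartsOK.cons (by decide +kernel) ?_
  refine PartsOK.cons (by decide +kernel) ?_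
  refine PartsOK.cons (by decide +kernel) ?_
  refine PartsOK.cons (by decide +kernel) ?_
  exact PartsOK.nil

theorem ch13 : chainN dat13 = true := by decide +kernel

theorem en13 : endsOK 87960930000 3454217652358 dat13 = true := by decide +kernel

theorem tu14 : PartsOK blks sgs14 := by
  refine PartsOK.cons (by decide +kernel) ?_
  refine PartsOK.cons (by decide +kernel) ?_
  refine PartsOK.cons (by decide +kernel) ?_
  refine PartsOK.cons (by decide +kernel) ?_
  refine PartsOK.cons (by decide +kernel) ?_
  refine PartsOK.cons (by decide +kernel) ?_
  refine PartsOK.cons (by decide +kernel) ?_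
  exact PartsOK.nil

theorem ch14 : chainN dat14 = true := by decide +kernel

theorem en14 : endsOK 87960930000 3454217652358 dat14 = true := by decide +kernel

theorem tu15 : PartsOK blks sgs15 := by
  refine PartsOK.cons (by decide +kernel) ?_
  refine PartsOK.cons (by decide +kernel) ?_
  refine PartsOK.cons (by decide +kernel) ?_
  refine PartsOK.cons (by decide +kernel) ?_
  refine PartsOK.cons (by decide +kernel) ?_
  refine PartsOK.cons (by decide +kernel) ?_
  refine PartsOK.cons (by decide +kernel) ?_
  refine PartsOK.cons (by decide +kernel) ?_
  refine PartsOK.cons (by decide +kernel) ?_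
  exact PartsOK.nil

theorem ch15 : chainN dat15 = true := by decide +kernel

theorem en15 : endsOK 87960930000 3454217652358 dat15 = true := by decide +kernel

theorem tu16 : PartsOK blks sgs16 := by
  refine PartsOK.cons (by decide +kernel) ?_
  refine PartsOK.cons (by decide +kernel) ?_
  refine PartsOK.cons (by decide +kernel) ?_
  refine PartsOK.cons (by decide +kernel) ?_
  refine PartsOK.cons (by decide +kernel) ?_
  refine PartsOK.cons (by decide +kernel) ?_
  refine PartsOK.cons (by decide +kernel) ?_
  refine PartsOK.cons (by decide +kernel) ?_
  refine PartsOK.cons (by decide +kernel) ?_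
  exact PartsOK.nil

theorem ch16 : chainN dat16 = true := by decide +kernel

theorem en16 : endsOK 87960930000 3454217652358 dat16 = true := by decide +kernel

theorem tu17 : PartsOK blks sgs17 := by
  refine PartsOK.cons (by decide +kernel) ?_
  refine PartsOK.cons (by decide +kernel) ?_
  refine PartsOK.cons (by decide +kernel) ?_
  refine PartsOK.cons (by decide +kernel) ?_
  refine PartsOK.cons (by decide +kernel) ?_
  refine PartsOK.cons (by decide +kernel) ?_
  refine PartsOK.cons (by decide +kernel) ?_
  refine PartsOK.cons (by decide +kernel) ?_
  refine PartsOK.cons (by decide +kernel) ?_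
  refine PartsOK.cons (by decide +kernel) ?_
  exact PartsOK.nil

theorem ch17 : chainN dat17 = true := by decide +kernel

theorem en17 : endsOK 87960930000 3454217652358 dat17 = true := by decide +kernel

theorem tu18 : PartsOK blks sgs18 := by
  refine PartsOK.cons (by decide +kernel) ?_
  refine PartsOK.cons (by decide +kernel) ?_
  refine PartsOK.cons (by decide +kernel) ?_
  refine PartsOK.cons (by decide +kernel) ?_
  refine PartsOK.cons (by decide +kernel) ?_
  refine PartsOK.cons (by decide +kernel) ?_
  refine PartsOK.cons (by decide +kernel) ?_
  refine PartsOK.cons (by decide +kernel) ?_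
  refine PartsOK.cons (by decide +kernel) ?_
  refine PartsOK.cons (by decide +kernel) ?_
  refine PartsOK.cons (by decide +kernel) ?_
  exact PartsOK.nil

theorem ch18 : chainN dat18 = true := by decide +kernel

theorem en18 : endsOK 87960930000 3454217652358 dat18 = true := by decide +kernel

theorem tu19 : PartsOK blks sgs19 := by
  refine PartsOK.cons (by decide +kernel) ?_
  refine PartsOK.cons (by decide +kernel) ?_
  refine PartsOK.cons (by decide +kernel) ?_
  refine PartsOK.cons (by decide +kernel) ?_
  refine PartsOK.cons (by decide +kernel) ?_
  refine PartsOK.cons (by decide +kernel) ?_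
  refine PartsOK.cons (by decide +kernel) ?_
  refine PartsOK.cons (by decide +kernel) ?_
  refine PartsOK.cons (by decide +kernel) ?_
  refine PartsOK.cons (by decide +kernel) ?_
  refine PartsOK.cons (by decide +kernel) ?_
  refine PartsOK.cons (by decide +kernel) ?_
  refine PartsOK.cons (by decide +kernel) ?_
  exact PartsOK.nil

theorem ch19 : chainN dat19 = true := by decide +kernel

theorem en19 : endsOK 87960930000 3454217652358 dat19 = true := by decide +kernel

theorem tu20 : PartsOK blks sgs20 := by
  refine PartsOK.cons (by decide +kernel) ?_
  refine PartsOK.cons (by decide +kernel) ?_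
  refine PartsOK.cons (by decide +kernel) ?_
  refine PartsOK.cons (by decide +kernel) ?_
  refine PartsOK.cons (by decide +kernel) ?_
  refine PartsOK.cons (by decide +kernel) ?_
  refine PartsOK.cons (by decide +kernel) ?_
  refine PartsOK.cons (by decide +kernel) ?_
  refine PartsOK.cons (by decide +kernel) ?_
  refine PartsOK.cons (by decide +kernel) ?_
  refine PartsOK.cons (by decide +kernel) ?_
  refine PartsOK.cons (by decide +kernel) ?_
  refine PartsOK.cons (by decide +kernel) ?_
  exact PartsOK.nil

theorem ch20 : chainN dat20 = true := by decide +kernel

theorem en20 : endsOK 87960930000 3454217652358 dat20 = true := by decide +kernel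

theorem tu21 : PartsOK blks sgs21 := by
  refine PartsOK.cons (by decide +kernel) ?_
  refine PartsOK.cons (by decide +kernel) ?_
  refine PartsOK.cons (by decide +kernel) ?_
  refine PartsOK.cons (by decide +kernel) ?_
  refine PartsOK.cons (by decide +kernel) ?_
  refine PartsOK.cons (by decide +kernel) ?_
  refine PartsOK.cons (by decide +kernel) ?_
  refine PartsOK.cons (by decide +kernel) ?_
  refine PartsOK.cons (by decide +kernel) ?_
  refine PartsOK.cons (by decide +kernel) ?_
  refine PartsOK.cons (by decide +kernel) ?_
  refine PartsOK.cons (by decide +kernel) ?_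
  refine PartsOK.cons (by decide +kernel) ?_
  refine PartsOK.cons (by decide +kernel) ?_
  exact PartsOK.nil

theorem ch21 : chainN dat21 = true := by decide +kernel

theorem en21 : endsOK 87960930000 3454217652358 dat21 = true := by decide +kernel

theorem tu22 : PartsOK blks sgs22 := by
  refine PartsOK.cons (by decide +kernel) ?_
  refine PartsOK.cons (by decide +kernel) ?_
  refine PartsOK.cons (by decide +kernel) ?_
  refine PartsOK.cons (by decide +kernel) ?_
  refine PartsOK.cons (by decide +kernel) ?_
  refine PartsOK.cons (by decide +kernel) ?_
  refine PartsOK.cons (by decide +kernel) ?_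
  refine PartsOK.cons (by decide +kernel) ?_
  refine PartsOK.cons (by decide +kernel) ?_
  refine PartsOK.cons (by decide +kernel) ?_
  refine PartsOK.cons (by decide +kernel) ?_
  refine PartsOK.cons (by decide +kernel) ?_
  refine PartsOK.cons (by decide +kernel) ?_
  refine PartsOK.cons (by decide +kernel) ?_
  refine PartsOK.cons (by decide +kernel) ?_
  exact PartsOK.nil

theorem ch22 : chainN dat22 = true := by decide +kernel

theorem en22 : endsOK 87960930000 3454217652358 dat22 = true := by decide +kernel

end SokalFU
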