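import Pool.Agent.Lib_MP_af4de1_fu.T.Da11
import Pool.Agent.Lib_MP_af4de1_fu.T.Cls
import Pool.Agent.Lib_MP_af4de1_fu.ChainN

set_option autoImplicit false

namespace SokalFU

theorem tu47 : PartsOK blks sgs47 := by
  refine PartsOK.cons (by decide +kernel) ?_
  refine PartsOK.cons (by decide +kernel) ?_
  refine PartsOK.cons (by decide +kernel) ?_
  refine PartsOK.cons (by decide +kernel) ?_
  refine PartsOK.cons (by decide +kernel) ?_
  refine PartsOK.cons (by decide +kernel) ?_
  refine PartsOK.cons (by decide +kernel) ?_
  refine PartsOK.cons (by decide +kernel) ?_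
  refine PartsOK.cons (by decide +kernel) ?_
  refine PartsOK.cons (by decide +kernel) ?_
  refine PartsOK.cons (by decide +kernel) ?_
  refine PartsOK.cons (by decide +kernel) ?_
  refine PartsOK.cons (by decide +kernel) ?_
  refine PartsOK.cons (by decide +kernel) ?_
  refine PartsOK.cons (by decide +kernel) ?_
  refine PartsOK.cons (by decide +kernel) ?_
  refine PartsOK.cons (by decide +kernel) ?_
  refine PartsOK.cons (by decide +kernel) ?_
  refine PartsOK.cons (by decide +kernel) ?_
  refine PartsOK.cons (by decide +kernel) ?_
  refine PartsOK.cons (by decide +kernel) ?_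
  refine PartsOK.cons (by decide +kernel) ?_
  refine PartsOK.cons (by decide +kernel) ?_
  refine PartsOK.cons (by decide +kernel) ?_
  refine PartsOK.cons (by decide +kernel) ?_
  refine PartsOK.cons (by decide +kernel) ?_
  refine PartsOK.cons (by decide +kernel) ?_
  refine PartsOK.cons (by decide +kernel) ?_
  refine PartsOK.cons (by decide +kernel) ?_
  refine PartsOK.cons (by decide +kernel) ?_
  refine PartsOK.cons (by decide +kernel) ?_
  refine PartsOK.cons (by decide +kernel) ?_
  refine PartsOK.cons (by decide +kernel) ?_
  refine PartsOK.cons (by decide +kernel) ?_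
  refine PartsOK.cons (by decide +kernel) ?_
  refine PartsOK.cons (by decide +kernel) ?_
  refine PartsOK.cons (by decide +kernel) ?_
  refine PartsOK.cons (by decide +kernel) ?_
  refine PartsOK.cons (by decide +kernel) ?_
  refine PartsOK.cons (by decide +kernel) ?_
  refine PartsOK.cons (by decide +kernel) ?_
  refine PartsOK.cons (by decide +kernel) ?_
  refine PartsOK.cons (by decide +kernel) ?_
  refine PartsOK.cons (by decide +kernel) ?_
  refine PartsOK.cons (by decide +kernel) ?_
  refine PartsOK.cons (by decide +kernel) ?_
  refine PartsOK.cons (by decide +kernel) ?_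
  refine PartsOK.cons (by decide +kernel) ?_
  refine PartsOK.cons (by decide +kernel) ?_
  refine PartsOK.cons (by decide +kernel) ?_
  refine PartsOK.cons (by decide +kernel) ?_
  refine PartsOK.cons (by decide +kernel) ?_
  refine PartsOK.cons (by decide +kernel) ?_
  refine PartsOK.cons (by decide +kernel) ?_
  refine PartsOK.cons (by decide +kernel) ?_
  refine PartsOK.cons (by decide +kernel) ?_
  refine PartsOK.cons (by decide +kernel) ?_
  refine PartsOK.cons (by decide +kernel) ?_
  refine PartsOK.cons (by decide +kernel) ?_
  refine PartsOK.cons (by decide +kernel) ?_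
  refine PartsOK.cons (by decide +kernel) ?_
  refine PartsOK.cons (by decide +kernel) ?_
  refine PartsOK.cons (by decide +kernel) ?_
  refine PartsOK.cons (by decide +kernel) ?_
  refine PartsOK.cons (by decide +kernel) ?_
  refine PartsOK.cons (by decide +kernel) ?_
  refine PartsOK.cons (by decide +kernel) ?_
  refine PartsOK.cons (by decide +kernel) ?_
  refine PartsOK.cons (by decide +kernel) ?_
  refine PartsOK.cons (by decide +kernel) ?_
  refine PartsOK.cons (by decide +kernel) ?_
  refine PartsOK.cons (by decide +kernel) ?_
  exact PartsOK.nil

theorem ch47 : chainN dat47 = true := by decide +kernel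

theorem en47 : endsOK 87960930000 3454217652358 dat47 = true := by decide +kernel

end SokalFU
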